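import Pool.Agent.R617.TC.Comp

/-!
# Tractability is not witnessed by the type clones of canonical polymorphisms

The statement of the problem holds if and only if `P = NP`. The counterexample (if `P ≠ NP`) is
`Δ = Γ = (ℚ; <)`. Its constraint satisfaction problem is the acyclicity of digraphs, which is in
`P`. If `f` is a canonical polymorphism for `(ℚ; <, c)`, then the order of two values of `f` at
tuples with entries above `max c` which differ in every coordinate depends on one coordinate only
(an ultrafilter on the finite set of coordinates appears). Therefore the relations that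
the type clone generates from the self-dual Boolean relations, with the types of `x < y` and
`x > y` above `max c` for the two bits, give a constraint satisfaction problem which is the same as
the Boolean one, for example 3SAT. The same holds for every reduct `Γ` of `(ℚ; ≤)` without constant
polymorphisms.
-/

set_option autoImplicit false

namespace Pool.Agent.Results.MP_436c39_lc.IffPEqNP

open FirstOrder Pool.Agent.R617.TC

/-- (1) The conjecture that tractable reducts `Γ` of countable, finitely bounded, ordered,
homogeneous Ramsey structures `Δ` have a tractable type clone holds if and only if `P = NP`.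
(2) The structure `(ℚ; ≤)` satisfies the hypotheses on `Δ`, its language has maximal arity two, and
`(ℚ; <)` is a reduct without constant polymorphisms, with a problem in `P`. (3) For every reduct
`Γ` of `(ℚ; ≤)` without constant polymorphisms and every tuple `c` the type clone has a minion
homomorphism to the projections, and it corresponds to a tractable problem if and only if
`P = NP`. -/
theorem result :
    (TypeCloneConjecture ↔ PEqNP) ∧
    (IsBase FirstOrder.Language.order ℚ ∧
      IsGreatest {n : ℕ | Nonempty (FirstOrder.Language.order.Relations n)} 2 ∧
      IsReduct FirstOrder.Language.order ({ltRel} : Set (Rel ℚ)) ∧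
      ¬ HasConstant ({ltRel} : Set (Rel ℚ)) ∧ Tractable ({ltRel} : Set (Rel ℚ))) ∧
    (∀ Γ : Set (Rel ℚ), IsReduct FirstOrder.Language.order Γ → ¬ HasConstant Γ →
      ∀ (n : ℕ) (c : Fin n → ℚ),
        MinionHomToProjections (TypeClone FirstOrder.Language.order Γ c 2) ∧
        (CloneTractable (TypeClone FirstOrder.Language.order Γ c 2) ↔ PEqNP)) := by
  refine ⟨⟨fun h => ?_, fun h L M _ hM Γ _ _ r _ => ?_⟩,
    ⟨rat_isBase, rat_arity, lt_reduct, lt_noConstant, lt_tractable⟩, fun Γ hΓ hno n c => ?_⟩
  · obtain ⟨n, c, hc⟩ := h FirstOrder.Language.order ℚ rat_isBase {ltRel} lt_reduct lt_tractable 2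
      rat_arity
    exact collapse lt_reduct lt_noConstant hc
  · exact ⟨0, Fin.elim0, tractable_of_peqnp h L M hM Γ _ r⟩
  · exact ⟨minionHom hΓ hno, collapse hΓ hno,
      fun h => tractable_of_peqnp h FirstOrder.Language.order ℚ rat_isBase Γ c 2⟩

end Pool.Agent.Results.MP_436c39_lc.IffPEqNP
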